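import Pool.Agent.R892.MS.Level
set_option autoImplicit false

/-!
# The run of a rule which switches several directions at once
-/

namespace Pool.Agent.TH70.AR.MS

open Finset

variable {n : ℕ}

/-- `t` moves of the rule from `a` with the past `h` -/
def run (A : Past n → Finset (Fin n)) (f : (Fin n → Bool) → ℕ) :
    ℕ → (Fin n → Bool) → Past n → (Fin n → Bool) × Past n
  | 0, a, h => (a, h)
  | t + 1, a, h => run A f t (sw a (A (view f a :: h))) (view f a :: h)

lemma run_succ (A : Past n → Finset (Fin n)) (f : (Fin n → Bool) → ℕ) (t : ℕ) (a : Fin n → Bool)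
    (h : Past n) : run A f (t + 1) a h =
      (sw (run A f t a h).1 (A (view f (run A f t a h).1 :: (run A f t a h).2)),
        view f (run A f t a h).1 :: (run A f t a h).2) := by
  induction t generalizing a h with
  | zero => rfl
  | succ t ih => rw [run, ih]; rfl

lemma run_walk {A : Past n → Finset (Fin n)} {c : ℕ → ℕ} {f : (Fin n → Bool) → ℕ}
    {q : List (Rec n)} {h : Past n} {a b : Fin n → Bool} (hq : Walk A c h a q b)
    (hS : ∀ r ∈ q, improving f r.w = r.S)
    (hv : ∀ (t : ℕ) (ht : t < q.length), f (q[t]).w = c (h.length + t)) :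
    ∀ (t : ℕ) (ht : t < q.length), (run A f t a h).1 = (q[t]).w ∧ (q[t]).S.Nonempty := by
  induction q generalizing h a with
  | nil => intro t ht; simp at ht
  | cons r q ih =>
    simp only [Walk] at hq
    obtain ⟨h1, h2, h3⟩ := hq
    have h4 : view f a = (a, c h.length, r.S) := by
      have h5 := hv 0 (by simp)
      simp only [List.getElem_cons_zero, add_zero] at h5
      rw [view, ← h1, h5, hS r List.mem_cons_self]
    intro t ht
    cases t with
    | zero => exact ⟨h1.symm, h2⟩
    | succ t =>
      have h5 := ih h3 (fun r hr => hS r (List.mem_cons_of_mem _ hr)) (by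
        intro t ht
        have := hv (t + 1) (by simpa using ht)
        simp only [List.getElem_cons_succ] at this
        rw [this, List.length_cons]
        congr 1
        omega) t (by simpa using ht)
      rw [run, h4]
      simpa using h5

/-- The main lower bound. -/
theorem slow {n k : ℕ} (hn : k * (k + 1) * (3 * k + 28) < n) (A : Past n → Finset (Fin n))
    (hA : Valid A) (x₀ : Fin n → Bool) :
    ∃ f : (Fin n → Bool) → ℕ, Function.Injective f ∧ AOF f ∧
      ∃ (L : ℕ) (w : ℕ → (Fin n → Bool)), w 0 = x₀ ∧
        (∀ t < L, (improving f (w t)).Nonempty ∧ w (t + 1) = sw (w t) (A (seen f w t))) ∧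
        improving f (w L) = ∅ ∧ 2 ^ k ≤ L := by
  classical
  obtain ⟨q, b, X, hq, hE, hS, -, -, -, -, hlen, -⟩ :=
    lv_all (c := fun t => (t + 1) * 2 ^ n) hA k univ [] x₀ (by simpa using hn)
  obtain ⟨f₀, hf₀, hf₀S, -⟩ := hE (fun _ => false) ∅ (by simp)
  have hf₀S' : ∀ r ∈ q, improving f₀ r.w = r.S := by
    intro r hr
    ext i
    rw [improving, mem_filter]
    simpa using hf₀S r hr i (mem_univ i)
  -- the visited vertices increase
  have hinc : ∀ (q : List (Rec n)) (h : Past n) (a : Fin n → Bool),
      Walk A (fun t => (t + 1) * 2 ^ n) h a q b → (∀ r ∈ q, improving f₀ r.w = r.S) →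
      ∀ (t : ℕ) (ht : t + 1 < q.length), f₀ (q[t]).w < f₀ (q[t + 1]).w := by
    intro q
    induction q with
    | nil => intro h a _ _ t ht; simp at ht
    | cons r q ih =>
      intro h a hq hS t ht
      simp only [Walk] at hq
      obtain ⟨h1, h2, h3⟩ := hq
      cases t with
      | zero =>
        cases q with
        | nil => simp at ht
        | cons s q =>
          simp only [Walk] at h3
          simp only [List.getElem_cons_zero, List.getElem_cons_succ]
          rw [h3.1, h1]
          have h4 := hA a ((h.length + 1) * 2 ^ n) r.S h h2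
          apply sw_lt hf₀ _ _ h4.1
          rw [← h1, hS r List.mem_cons_self, h1]
          exact h4.2
      | succ t =>
        simp only [List.getElem_cons_succ]
        exact ih _ _ h3 (fun r hr => hS r (List.mem_cons_of_mem _ hr)) t (by simpa using ht)
  set u : ℕ → (Fin n → Bool) := fun t => if ht : t < q.length then (q[t]).w else x₀ with hu
  have hut : ∀ (t : ℕ) (ht : t < q.length), u t = (q[t]).w := fun t ht => by simp [hu, ht]
  obtain ⟨f, hinj, hadj, hval⟩ := relabel hf₀ (T := q.length) u (by
    intro t ht
    rw [hut t (by omega), hut (t + 1) ht]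
    exact hinc q [] x₀ hq hf₀S' t ht)
  have himp : ∀ x, improving f x = improving f₀ x := by
    intro x
    ext i
    simp only [improving, mem_filter, hadj]
  have hAOF : AOF f := by
    have h1 : ∀ y i, f (flip y i) < f y ↔ f₀ (flip y i) < f₀ y := by
      intro y i
      have := hadj (flip y i) i
      rwa [flip_flip] at this
    intro F x
    obtain ⟨y, ⟨hy1, hy2⟩, hy3⟩ := hf₀ F x
    exact ⟨y, ⟨hy1, fun i hi => (h1 y i).2 (hy2 i hi)⟩,
      fun z hz => hy3 z ⟨hz.1, fun i hi => (h1 z i).1 (hz.2 i hi)⟩⟩
  have hrun := run_walk (f := f) hq (fun r hr => (himp _).trans (hf₀S' r hr)) (by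
    intro t ht
    rw [← hut t ht, hval t ht]
    simp)
  refine ⟨f, hinj, hAOF, ?_⟩
  -- the run
  set w : ℕ → (Fin n → Bool) := fun t => (run A f t x₀ []).1 with hw
  have hseen : ∀ t, seen f w t = view f (w t) :: (run A f t x₀ []).2 := by
    intro t
    induction t with
    | zero => rfl
    | succ t ih => rw [seen, ih, run_succ]
  have hstep : ∀ t, w (t + 1) = sw (w t) (A (seen f w t)) := by
    intro t
    rw [hseen]
    simp only [hw, run_succ]
  have hup : ∀ t, (improving f (w t)).Nonempty → f (w t) < f (w (t + 1)) := by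
    intro t ht
    have h1 := hA (w t) (f (w t)) (improving f (w t)) (run A f t x₀ []).2 ht
    rw [hstep, hseen]
    exact sw_lt hAOF _ h1.2 h1.1
  have hend : ∃ t, improving f (w t) = ∅ := by
    by_contra hne
    push Not at hne
    have h1 : StrictMono fun t => f (w t) := strictMono_nat_of_lt_succ fun t => hup t (hne t)
    have h2 := h1.injective
    have h3 : Function.Injective w := fun s t h => h2 (by simp only [h])
    exact not_injective_infinite_finite w h3
  refine ⟨Nat.find hend, w, rfl, fun t ht => ⟨?_, hstep t⟩, Nat.find_spec hend, ?_⟩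
  · exact nonempty_iff_ne_empty.2 (Nat.find_min hend ht)
  · by_contra hlt
    have h1 : Nat.find hend < q.length := by omega
    have h2 := hrun _ h1
    have h3 : improving f (w (Nat.find hend)) = (q[Nat.find hend]).S := by
      rw [himp, ← hf₀S' _ (List.getElem_mem h1)]
      congr 1
      exact h2.1
    rw [Nat.find_spec hend] at h3
    rw [← h3] at h2
    exact absurd h2.2 (by simp)

end Pool.Agent.TH70.AR.MS
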