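import Pool.Agent.TH70.AR.Run
set_option autoImplicit false

/-!
# Switching several improving directions at once

In a unique sink orientation two different vertices differ in a direction which is improving at
exactly one of them (Szabó and Welzl). So switching any nonempty set of improving directions
increases an objective function with one local maximum on every face.
-/

namespace Pool.Agent.TH70.AR.MS

open Finset

variable {n : ℕ}

/-- switch the directions in `T` -/
def sw (x : Fin n → Bool) (T : Finset (Fin n)) : Fin n → Bool := fun i => if i ∈ T then !x i else x i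

lemma sw_mem {x : Fin n → Bool} {T : Finset (Fin n)} {i : Fin n} (h : i ∈ T) : sw x T i = !x i := by
  simp [sw, h]

lemma sw_not_mem {x : Fin n → Bool} {T : Finset (Fin n)} {i : Fin n} (h : i ∉ T) :
    sw x T i = x i := by
  simp [sw, h]

lemma sw_flip {x : Fin n → Bool} {T : Finset (Fin n)} {i : Fin n} (h : i ∈ T) :
    flip (sw x T) i = sw x (T.erase i) := by
  funext j
  by_cases hj : j = i
  · subst hj
    rw [flip_self, sw_mem h, sw_not_mem (by simp), Bool.not_not]
  · rw [flip_of_ne _ hj]
    by_cases hT : j ∈ T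
    · rw [sw_mem hT, sw_mem (mem_erase.2 ⟨hj, hT⟩)]
    · rw [sw_not_mem hT, sw_not_mem (fun h => hT (mem_of_mem_erase h))]

/-- the two ends of an edge see it differently -/
def Edge (s : (Fin n → Bool) → Finset (Fin n)) : Prop := ∀ x i, i ∈ s x ↔ i ∉ s (flip x i)

/-- one sink on every face -/
def US (s : (Fin n → Bool) → Finset (Fin n)) : Prop :=
  ∀ (F : Finset (Fin n)) (x : Fin n → Bool), ∃! y : Fin n → Bool,
    (∀ i, i ∉ F → y i = x i) ∧ ∀ i ∈ F, i ∉ s y

/-- reverse all edges of direction `j` -/
def tog (s : (Fin n → Bool) → Finset (Fin n)) (j : Fin n) : (Fin n → Bool) → Finset (Fin n) :=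
  fun x => symmDiff (s x) {j}

lemma mem_tog_self {s : (Fin n → Bool) → Finset (Fin n)} {j : Fin n} {x : Fin n → Bool} :
    j ∈ tog s j x ↔ j ∉ s x := by
  simp [tog, mem_symmDiff]

lemma mem_tog_ne {s : (Fin n → Bool) → Finset (Fin n)} {i j : Fin n} (h : i ≠ j)
    {x : Fin n → Bool} : i ∈ tog s j x ↔ i ∈ s x := by
  simp [tog, mem_symmDiff, h]

lemma tog_edge {s : (Fin n → Bool) → Finset (Fin n)} (hE : Edge s) (j : Fin n) :
    Edge (tog s j) := by
  intro x i
  by_cases h : i = j
  · subst h
    rw [mem_tog_self, mem_tog_self, hE x i, not_not]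
  · rw [mem_tog_ne h, mem_tog_ne h, hE x i]

lemma tog_us {s : (Fin n → Bool) → Finset (Fin n)} (hU : US s) (j : Fin n) :
    US (tog s j) := by
  intro F x
  by_cases hj : j ∈ F
  swap
  · obtain ⟨y, ⟨h1, h2⟩, h3⟩ := hU F x
    refine ⟨y, ⟨h1, fun i hi => ?_⟩, fun z hz => h3 z ⟨hz.1, fun i hi => ?_⟩⟩
    · rw [mem_tog_ne (by rintro rfl; exact hj hi)]
      exact h2 i hi
    · have := hz.2 i hi
      rwa [mem_tog_ne (by rintro rfl; exact hj hi)] at this
  obtain ⟨y, ⟨hy1, hy2⟩, hy3⟩ := hU F x
  -- the other facet
  obtain ⟨z, ⟨hz1, hz2⟩, hz3⟩ := hU (F.erase j) (flip y j)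
  have hzj : z j = !y j := by
    rw [hz1 j (by simp), flip_self]
  have hzx : ∀ i, i ∉ F → z i = x i := by
    intro i hi
    have hij : i ≠ j := by rintro rfl; exact hi hj
    rw [hz1 i (fun h => hi (mem_of_mem_erase h)), flip_of_ne _ hij, hy1 i hi]
  have hjz : j ∈ s z := by
    by_contra h
    have : z = y := by
      apply hy3
      refine ⟨hzx, fun i hi => ?_⟩
      by_cases hij : i = j
      · subst hij; exact h
      · exact hz2 i (mem_erase.2 ⟨hij, hi⟩)
    rw [this] at hzj
    simp at hzj
  refine ⟨z, ⟨hzx, fun i hi => ?_⟩, ?_⟩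
  · by_cases hij : i = j
    · subst hij
      rw [mem_tog_self, not_not]
      exact hjz
    · rw [mem_tog_ne hij]
      exact hz2 i (mem_erase.2 ⟨hij, hi⟩)
  · rintro w ⟨hw1, hw2⟩
    have hwj : j ∈ s w := by
      have := hw2 j hj
      rwa [mem_tog_self, not_not] at this
    have hws : ∀ i ∈ F.erase j, i ∉ s w := by
      intro i hi
      have := hw2 i (mem_of_mem_erase hi)
      rwa [mem_tog_ne (mem_erase.1 hi).1] at this
    by_cases hwy : w j = y j
    · -- then `w` is the sink of the facet of `y`
      exfalso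
      have : w = y := by
        obtain ⟨u, -, hu⟩ := hU (F.erase j) y
        have e1 : w = u := hu w ⟨fun i hi => by
          by_cases hij : i = j
          · rw [hij, hwy]
          · have hiF : i ∉ F := fun h => hi (mem_erase.2 ⟨hij, h⟩)
            rw [hw1 i hiF, hy1 i hiF], hws⟩
        have e2 : y = u := hu y ⟨fun i _ => rfl, fun i hi => hy2 i (mem_of_mem_erase hi)⟩
        rw [e1, e2]
      rw [this] at hwj
      exact hy2 j hj hwj
    · apply hz3
      refine ⟨fun i hi => ?_, hws⟩
      by_cases hij : i = j
      · rw [hij, flip_self]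
        exact Bool.eq_not_of_ne hwy
      · have hiF : i ∉ F := fun h => hi (mem_erase.2 ⟨hij, h⟩)
        rw [flip_of_ne _ hij, hw1 i hiF, hy1 i hiF]

/-- **Szabó and Welzl.** Two vertices differ in a direction in which their outmaps differ. -/
lemma us_pair {s : (Fin n → Bool) → Finset (Fin n)} (hU : US s) {x y : Fin n → Bool}
    (h : ∀ i, x i ≠ y i → (i ∈ s x ↔ i ∈ s y)) : x = y := by
  -- reverse the directions in which both are outgoing
  have key : ∀ (L : Finset (Fin n)) (s : (Fin n → Bool) → Finset (Fin n)), US s →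
      (∀ i, x i ≠ y i → (i ∈ s x ↔ i ∈ s y)) → (∀ i, x i ≠ y i → i ∈ s x → i ∈ L) → x = y := by
    intro L
    induction L using Finset.induction_on with
    | empty =>
      intro s hU h hL
      obtain ⟨u, -, hu⟩ := hU (univ.filter fun i => x i ≠ y i) x
      have e1 : x = u := hu x ⟨fun i _ => rfl, fun i hi h1 => by
        rw [mem_filter] at hi
        exact absurd (hL i hi.2 h1) (by simp)⟩
      have e2 : y = u := hu y ⟨fun i hi => by
        by_contra h1
        exact hi (mem_filter.2 ⟨mem_univ i, fun h2 => h1 h2.symm⟩), fun i hi h1 => by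
        rw [mem_filter] at hi
        exact absurd (hL i hi.2 ((h i hi.2).2 h1)) (by simp)⟩
      rw [e1, e2]
    | insert j L hj ih =>
      intro s hU h hL
      by_cases hjx : x j ≠ y j ∧ j ∈ s x
      · apply ih (tog s j) (tog_us hU j)
        · intro i hi
          by_cases hij : i = j
          · subst hij
            rw [mem_tog_self, mem_tog_self, h i hi]
          · rw [mem_tog_ne hij, mem_tog_ne hij, h i hi]
        · intro i hi h1
          by_cases hij : i = j
          · subst hij
            rw [mem_tog_self] at h1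
            exact absurd hjx.2 h1
          · rw [mem_tog_ne hij] at h1
            exact mem_of_mem_insert_of_ne (hL i hi h1) hij
      · apply ih s hU h
        intro i hi h1
        exact mem_of_mem_insert_of_ne (hL i hi h1) (by rintro rfl; exact hjx ⟨hi, h1⟩)
  exact key univ s hU h fun i _ _ => mem_univ i

lemma us_improving {f : (Fin n → Bool) → ℕ} (hf : AOF f) : US (improving f) := by
  have h1 : ∀ (y : Fin n → Bool) (i : Fin n), f (flip y i) < f y ↔ i ∉ improving f y := by
    intro y i
    rw [improving, mem_filter]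
    simp only [mem_univ, true_and, not_lt]
    exact ⟨fun h => h.le, fun h => lt_of_le_of_ne h (hf.ne y i)⟩
  intro F x
  obtain ⟨y, ⟨hy1, hy2⟩, hy3⟩ := hf F x
  exact ⟨y, ⟨hy1, fun i hi => (h1 y i).1 (hy2 i hi)⟩,
    fun z hz => hy3 z ⟨hz.1, fun i hi => (h1 z i).2 (hz.2 i hi)⟩⟩

/-- switching improving directions increases the objective function -/
lemma sw_lt {f : (Fin n → Bool) → ℕ} (hf : AOF f) {x : Fin n → Bool} :
    ∀ (T : Finset (Fin n)), T ⊆ improving f x → T.Nonempty → f x < f (sw x T) := by
  intro T
  induction hk : T.card using Nat.strong_induction_on generalizing T with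
  | _ k ih =>
    intro hT hne
    have h1 : ∃ i, x i ≠ sw x T i ∧ ¬ (i ∈ improving f x ↔ i ∈ improving f (sw x T)) := by
      by_contra h
      push Not at h
      have h2 := us_pair (us_improving hf) h
      obtain ⟨i, hi⟩ := hne
      have h3 := congrFun h2 i
      rw [sw_mem hi] at h3
      simp at h3
    obtain ⟨i, hi1, hi2⟩ := h1
    have hiT : i ∈ T := by
      by_contra h
      exact hi1 (sw_not_mem h).symm
    have hi3 : i ∉ improving f (sw x T) := fun h => hi2 (iff_of_true (hT hiT) h)
    have hi4 : f (flip (sw x T) i) < f (sw x T) := by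
      rw [improving, mem_filter] at hi3
      exact lt_of_le_of_ne (by by_contra h; exact hi3 ⟨mem_univ i, by omega⟩) (hf.ne _ i)
    rw [sw_flip hiT] at hi4
    by_cases he : (T.erase i).Nonempty
    · exact (ih _ (by rw [← hk]; exact card_erase_lt_of_mem hiT) (T.erase i) rfl
        ((erase_subset _ _).trans hT) he).trans hi4
    · rw [not_nonempty_iff_eq_empty] at he
      rw [he] at hi4
      have : sw x ∅ = x := by funext j; simp [sw]
      rwa [this] at hi4

end Pool.Agent.TH70.AR.MS
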